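import Pool.Agent.H83.AT.Targets

/-!
# Pullbacks of `A_U → A` (module CI)
-/

open CategoryTheory CategoryTheory.Limits TopologicalSpace Topology Set Opposite

namespace Pool.Agent.H80.AT

open Pool.Agent.H96.AL Pool.Agent.H83.AT

variable {F : Type} [Field F] {X Y : TopCat.{0}}

lemma pb_map_isIso (hPS : T_PS) (f : Y ⟶ X) {A B : Sh F X} (φ : A ⟶ B)
    (h : ∀ y, Function.Bijective (sm φ (f y))) : IsIso ((pb F f).map φ) := by
  rw [isIso_iff]
  intro y
  have hA := hPS F X Y f A y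
  have hB := hPS F X Y f B y
  constructor
  · intro a b hab
    obtain ⟨a', rfl⟩ := hA.2 a
    obtain ⟨b', rfl⟩ := hA.2 b
    rw [sg_nat, sg_nat] at hab
    rw [(h y).1 (hB.1 hab)]
  · intro b
    obtain ⟨b', rfl⟩ := hB.2 b
    obtain ⟨a', rfl⟩ := (h y).2 b'
    exact ⟨sg f A y a', sg_nat f φ y a'⟩

lemma sm_cutMap_id_bij {U V : Opens X} (h : U ≤ V) (A : Sh F X) {x : X} (hx : x ∈ U) :
    Function.Bijective (sm (cutMap h (𝟙 A)) x) := by
  have key : ∀ s, sm (ic V A) x (sm (cutMap h (𝟙 A)) x s) = sm (ic U A) x s := by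
    intro s
    rw [← sm_comp, cutMap_ic, sm_comp, sm_id]
  have hU := sm_ic_bij A hx
  have hV := sm_ic_bij A (h hx)
  constructor
  · intro a b hab
    apply hU.1
    rw [← key, ← key, hab]
  · intro b
    obtain ⟨a, ha⟩ := hU.2 (sm (ic V A) x b)
    exact ⟨a, hV.1 (by rw [key, ha])⟩

theorem ci (hPS : T_PS) : T_CI := by
  intro F _ X Y f A U V h hf
  exact ⟨pb_map_isIso hPS f _ (fun y => sm_cutMap_id_bij h A (hf y)),
    pb_map_isIso hPS f _ (fun y => sm_ic_bij A (hf y))⟩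

end Pool.Agent.H80.AT
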