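import Pool.Agent.H83.AT.Targets

/-!
# Injections and projections of `Q^r` (module PW)
-/

open CategoryTheory CategoryTheory.Limits

namespace Pool.Agent.H80.AT

open Pool.Agent.H85.AU Pool.Agent.H83.AT

lemma pw_step {C : Type 1} [Category.{0} C] [Abelian C] (R Q : C) (r : ℕ)
    (i0 : Fin r → (Q ⟶ R)) (p0 : Fin r → (R ⟶ Q))
    (h1 : ∀ a b, i0 a ≫ p0 b = if a = b then 𝟙 Q else 0) (h2 : ∑ a, p0 a ≫ i0 a = 𝟙 R) :
    ∃ (i : Fin (r + 1) → (Q ⟶ R ⊞ Q)) (p : Fin (r + 1) → (R ⊞ Q ⟶ Q)),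
      (∀ a b, i a ≫ p b = if a = b then 𝟙 Q else 0) ∧ ∑ a, p a ≫ i a = 𝟙 (R ⊞ Q) := by
  let i : Fin (r + 1) → (Q ⟶ R ⊞ Q) :=
    Fin.lastCases (motive := fun _ => (Q ⟶ R ⊞ Q)) biprod.inr (fun a => i0 a ≫ biprod.inl)
  let p : Fin (r + 1) → (R ⊞ Q ⟶ Q) :=
    Fin.lastCases (motive := fun _ => (R ⊞ Q ⟶ Q)) biprod.snd (fun a => biprod.fst ≫ p0 a)
  have hil : i (Fin.last r) = biprod.inr := Fin.lastCases_last
  have hic : ∀ a : Fin r, i a.castSucc = i0 a ≫ biprod.inl := fun a => Fin.lastCases_castSucc a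
  have hpl : p (Fin.last r) = biprod.snd := Fin.lastCases_last
  have hpc : ∀ a : Fin r, p a.castSucc = biprod.fst ≫ p0 a := fun a => Fin.lastCases_castSucc a
  refine ⟨i, p, ?_, ?_⟩
  · intro a b
    refine Fin.lastCases ?_ (fun a => ?_) a <;> refine Fin.lastCases ?_ (fun b => ?_) b
    · rw [hil, hpl, if_pos rfl]; exact biprod.inr_snd
    · rw [hil, hpc, if_neg (Fin.castSucc_lt_last b).ne', biprod.inr_fst_assoc, zero_comp]
    · rw [hic, hpl, if_neg (Fin.castSucc_lt_last a).ne, Category.assoc, biprod.inl_snd,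
        comp_zero]
    · rw [hic, hpc, Category.assoc, biprod.inl_fst_assoc, h1]
      simp only [Fin.castSucc_inj]
  · rw [Fin.sum_univ_castSucc, hil, hpl]
    have e : ∀ a : Fin r, p a.castSucc ≫ i a.castSucc =
        biprod.fst ≫ (p0 a ≫ i0 a) ≫ biprod.inl := by
      intro a; rw [hic, hpc]; simp only [Category.assoc]
    rw [Finset.sum_congr rfl (fun a _ => e a), ← Preadditive.comp_sum,
      ← Preadditive.sum_comp, h2, Category.id_comp]
    exact biprod.total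

open ZeroObject in
theorem pw_ : T_PW := by
  intro C _ _ Q r
  induction r with
  | zero =>
    refine ⟨fun a => a.elim0, fun a => a.elim0, fun a => a.elim0, ?_⟩
    have h : IsZero (pw Q 0) := isZero_zero C
    exact h.eq_of_src _ _
  | succ r ih =>
    obtain ⟨i0, p0, h1, h2⟩ := ih
    exact pw_step (pw Q r) Q r i0 p0 h1 h2

end Pool.Agent.H80.AT
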