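import Pool.Agent.H83.AT.Targets

/-!
# `A_U → (j_* j^* A)_U` is an isomorphism (module UI)
-/

open CategoryTheory CategoryTheory.Limits TopologicalSpace Topology Set Opposite

namespace Pool.Agent.H80.AT.UI

open Pool.Agent.H96.AL Pool.Agent.H83.AT

theorem ui (hPS : T_PS) (hSP : T_SP) : T_UI := by
  intro F _ X U A
  rw [isIso_iff]
  intro x
  by_cases hx : x ∈ U
  · have hA := sm_ic_bij A hx
    have hB := sm_ic_bij ((pf F (inc U)).obj ((pb F (inc U)).obj A)) hx
    have hu : Function.Bijective (sm ((pa F (inc U)).unit.app A) x) := by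
      have h1 := hPS F X (osp U) (inc U) A ⟨x, hx⟩
      have h2 := hSP F X U ((pb F (inc U)).obj A) ⟨x, hx⟩
      constructor
      · intro a b hab
        apply h1.1
        change sp (inc U) ((pb F (inc U)).obj A) ⟨x, hx⟩ (sm ((pa F (inc U)).unit.app A) x a) =
          sp (inc U) ((pb F (inc U)).obj A) ⟨x, hx⟩ (sm ((pa F (inc U)).unit.app A) x b)
        rw [hab]
      · intro b
        obtain ⟨a, ha⟩ := h1.2 (sp (inc U) ((pb F (inc U)).obj A) ⟨x, hx⟩ b)
        exact ⟨a, h2.1 ha⟩
    have key : ∀ s, sm (ic U ((pf F (inc U)).obj ((pb F (inc U)).obj A))) x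
        (sm (cutMap (le_refl U) (A := A) (B := (pf F (inc U)).obj ((pb F (inc U)).obj A))
          ((pa F (inc U)).unit.app A)) x s) =
        sm ((pa F (inc U)).unit.app A) x (sm (ic U A) x s) := by
      intro s
      rw [← sm_comp, cutMap_ic, sm_comp]
    constructor
    · intro a b hab
      apply hA.1
      apply hu.1
      rw [← key, ← key, hab]
    · intro b
      obtain ⟨c, hc⟩ := hu.2 (sm (ic U ((pf F (inc U)).obj ((pb F (inc U)).obj A))) x b)
      obtain ⟨a, ha⟩ := hA.2 c
      exact ⟨a, hB.1 (by rw [key, ha, hc])⟩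
  · constructor
    · intro a b _
      rw [stk_cut_eq_zero A hx a, stk_cut_eq_zero A hx b]
    · intro b
      refine ⟨0, ?_⟩
      rw [map_zero]
      exact (stk_cut_eq_zero _ hx b).symm

end Pool.Agent.H80.AT.UI
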